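import Pool.Agent.NPG.StmtsD

set_option autoImplicit false

open MeasureTheory Set Topology

namespace Pool.Agent.NPY.H8

open Pool.Agent.LSG Pool.Agent.NPY

/-- **DSC** -/
theorem dsc : DscStmt := by
  intro S hS
  refine ⟨?_, ?_⟩
  · intro x hx y hy a b ha hb hab
    have key : ∀ z, z ∈ Metric.ball (0 : EuclideanSpace ℝ (Fin 2)) 1 ∪ S →
        z ∈ Metric.closedBall (0 : EuclideanSpace ℝ (Fin 2)) 1 := by
      intro z hz
      rcases hz with hz | hz
      · exact Metric.ball_subset_closedBall hz
      · rw [mem_closedBall_zero_iff]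
        exact (hS z hz).le
    by_cases hxy : x = y
    · subst hxy
      have : a • x + b • x = x := by rw [← add_smul, hab, one_smul]
      rw [this]
      exact hx
    · by_cases ha0 : a = 0
      · have hb1 : b = 1 := by rw [ha0, zero_add] at hab; exact hab
        rw [ha0, hb1, zero_smul, zero_add, one_smul]
        exact hy
      · by_cases hb0 : b = 0
        · have ha1 : a = 1 := by rw [hb0, add_zero] at hab; exact hab
          rw [hb0, ha1, zero_smul, add_zero, one_smul]
          exact hx
        · have ha' : 0 < a := lt_of_le_of_ne ha (Ne.symm ha0)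
          have hb' : 0 < b := lt_of_le_of_ne hb (Ne.symm hb0)
          have h := strictConvex_closedBall ℝ (0 : EuclideanSpace ℝ (Fin 2)) 1 (key x hx)
            (key y hy) hxy ha' hb' hab
          rw [interior_closedBall _ one_ne_zero] at h
          exact Or.inl h
  · refine ⟨fun j => {z | ‖z.1‖ ≤ 1 - 1 / ((j : ℝ) + 1)}, ?_, ?_, ?_⟩
    · intro j
      rw [Topology.IsInducing.subtypeVal.isCompact_iff]
      have him : Subtype.val '' {z : ↥(Metric.ball (0 : EuclideanSpace ℝ (Fin 2)) 1 ∪ S) |
          ‖z.1‖ ≤ 1 - 1 / ((j : ℝ) + 1)} =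
          Metric.closedBall (0 : EuclideanSpace ℝ (Fin 2)) (1 - 1 / ((j : ℝ) + 1)) := by
        ext w
        rw [mem_closedBall_zero_iff]
        constructor
        · rintro ⟨z, hz, rfl⟩
          exact hz
        · intro hw
          have hpos : (0 : ℝ) < 1 / ((j : ℝ) + 1) := Nat.one_div_pos_of_nat
          have hw1 : w ∈ Metric.ball (0 : EuclideanSpace ℝ (Fin 2)) 1 := by
            rw [mem_ball_zero_iff]
            linarith
          exact ⟨⟨w, Or.inl hw1⟩, hw, rfl⟩
      rw [him]
      exact isCompact_closedBall _ _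
    · intro j k hjk z hz
      have h1 : 1 / ((k : ℝ) + 1) ≤ 1 / ((j : ℝ) + 1) := Nat.one_div_le_one_div hjk
      have hz' : ‖z.1‖ ≤ 1 - 1 / ((j : ℝ) + 1) := hz
      show ‖z.1‖ ≤ 1 - 1 / ((k : ℝ) + 1)
      linarith
    · intro z
      rcases z.2 with hz | hz
      · right
        rw [mem_ball_zero_iff] at hz
        obtain ⟨n, hn⟩ := exists_nat_one_div_lt (sub_pos.2 hz)
        refine ⟨n, ?_⟩
        show ‖z.1‖ ≤ 1 - 1 / ((n : ℝ) + 1)
        linarith
      · exact Or.inl hz

end Pool.Agent.NPY.H8
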